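import Pool.Agent.helper87.FM.Spec

/-!
# Row CR2 of project FM
-/

set_option autoImplicit false

namespace Pool.Agent.FM

open Polynomial Matrix Pool.Agent.helper42.NS Pool.Agent.FS

theorem CR2 (h1 : EXC_stmt) : CR2_stmt := by
  intro a t p H ha hp hpa hH hR ht hc s hs
  have key : ∃ B : Fin 36 → Fin t → Bool, ∀ P : Pt, Above p P → ¬ Bad P H B := by
    by_contra hcon
    push Not at hcon
    have h2 := h1 a t p H ha hp hpa hH.2.2 hR ht hc
    have h3 : {B : Fin 36 → Fin t → Bool | ∃ P : Pt, Above p P ∧ Bad P H B} = Set.univ := by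
      apply Set.eq_univ_of_forall
      intro B
      exact hcon B
    have h4 : Set.ncard (Set.univ : Set (Fin 36 → Fin t → Bool)) = 2 ^ (36 * t) := by
      rw [Set.ncard_univ, Nat.card_eq_fintype_card]
      simp only [Fintype.card_fun, Fintype.card_fin, Fintype.card_bool]
      rw [← pow_mul, Nat.mul_comm]
    rw [h3, h4] at h2
    have h5 : (2 : ℕ) ^ 47 ≤ 2 ^ (3 * a) := Nat.pow_le_pow_right (by norm_num) (by omega)
    have h6 : 0 < (2 : ℕ) ^ (36 * t) := by positivity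
    have h7 : (2 : ℕ) ^ (36 * t) * 2 ^ 47 ≤ 2 ^ (36 * t) * 2 ^ 46 := by
      calc (2 : ℕ) ^ (36 * t) * 2 ^ 47 ≤ 2 ^ (36 * t) * 2 ^ (3 * a) := Nat.mul_le_mul_left _ h5
        _ ≤ 2 ^ 46 * 2 ^ (36 * t) := h2
        _ = 2 ^ (36 * t) * 2 ^ 46 := Nat.mul_comm _ _
    have h8 := Nat.le_of_mul_le_mul_left h7 h6
    norm_num at h8
  obtain ⟨B, hB⟩ := key
  have hbad : ∀ P ∈ s, Bad P H B := by
    intro P hP
    letI : Field (KP P) := Ideal.Quotient.field P.asIdeal
    exact CRE_aux (KP P) (lamP P) t 36 H B (by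
      have := hs P hP
      exact Nat.lt_of_lt_of_le (by norm_num) this)
  have h3 := T_PTQ t 36 (10 * a + 10) p H B hp hH ht hB s hbad
  have e : 4 * (10 * a + 10) + 1 = 40 * a + 41 := by ring
  rwa [e] at h3

end Pool.Agent.FM
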